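import Pool.Agent.P.MP_067fd8_lc.UAll

set_option autoImplicit false

namespace Pool.Agent.Results.MP_067fd8_lc.NoEffectiveFamily

/-- `LD P s rs w`: the sentential form `s` derives the word `w` by the leftmost derivation that
applies the rules `rs` of `P`, in this order. -/
inductive LD {α N : Type} (P : Set (ContextFreeRule α N)) :
    List (Symbol α N) → List (ContextFreeRule α N) → List α → Prop
  | nil : LD P [] [] []
  | term {a : α} {s rs w} : LD P s rs w → LD P (Symbol.terminal a :: s) rs (a :: w)
  | nt {r : ContextFreeRule α N} {s rs w} : r ∈ P → LD P (r.output ++ s) rs w →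
      LD P (Symbol.nonterminal r.input :: s) (r :: rs) w

/-- the language of the grammar with rules `P` and start symbol `S` -/
def Lang {α N : Type} (P : Set (ContextFreeRule α N)) (S : N) : Set (List α) :=
  {w | ∃ rs, LD P [Symbol.nonterminal S] rs w}

/-- every word has at most one leftmost derivation -/
def Unamb {α N : Type} (P : Set (ContextFreeRule α N)) (S : N) : Prop :=
  ∀ w rs rs', LD P [Symbol.nonterminal S] rs w → LD P [Symbol.nonterminal S] rs' w → rs = rs'

/-- the rules coded by a list; `inl` marks terminals and `inr` nonterminals -/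
def rules (l : List (ℕ × List (ℕ ⊕ ℕ))) : Set (ContextFreeRule ℕ ℕ) :=
  {r | ∃ p ∈ l, r = ⟨p.1, p.2.map (Sum.elim Symbol.terminal Symbol.nonterminal)⟩}

theorem LD_iff {α N : Type} (P : Set (ContextFreeRule α N)) (s : List (Symbol α N))
    (rs : List (ContextFreeRule α N)) (w : List α) :
    LD P s rs w ↔ Pool.Agent.P.MP_067fd8_lc.Unif.D P s rs w := by
  constructor
  · intro h
    induction h with
    | nil => exact .nil
    | term _ ih => exact .term ih
    | nt hr _ ih => exact .nt hr ih
  · intro h
    induction h with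
    | nil => exact .nil
    | term _ ih => exact .term ih
    | nt hr _ ih => exact .nt hr ih

/-- No recursively enumerable family of unambiguous grammars generates, by inverse morphisms and
intersections with regular sets, all unambiguous context-free languages over two letters. -/
theorem result :
    ∀ G : ℕ × List (ℕ × List (ℕ ⊕ ℕ)) → Prop, REPred G →
      (∀ c, G c → Unamb (rules c.2) c.1) →
      ∃ (N : Type) (S : N) (P : Set (ContextFreeRule Bool N)), P.Finite ∧ Unamb P S ∧
        ∀ c, G c → ∀ (h : Bool → List ℕ) (σ : Type) [Finite σ] (M : DFA Bool σ),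
          Lang P S ≠ {w | w.flatMap h ∈ Lang (rules c.2) c.1 ∧ w ∈ M.accepts} := by
  intro G hG hU
  have e : (Sum.elim Symbol.terminal Symbol.nonterminal : ℕ ⊕ ℕ → Symbol ℕ ℕ) =
      Pool.Agent.P.MP_067fd8_lc.Unif.symE.symm := by
    funext x
    cases x <;> rfl
  obtain ⟨L, ⟨N, S, P, hP, h1, h2⟩, h⟩ := Pool.Agent.P.MP_067fd8_lc.Unif.no_re_family_bool G hG
    (fun c => rules c.2) (fun c r => by rw [← e]; rfl)
    (fun c hc w rs rs' a b => hU c hc w rs rs' ((LD_iff _ _ _ _).2 a) ((LD_iff _ _ _ _).2 b))
  refine ⟨N, S, P, hP, fun w rs rs' a b =>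
    h2 w rs rs' ((LD_iff _ _ _ _).1 a) ((LD_iff _ _ _ _).1 b), fun c hc f σ i M hE => ?_⟩
  obtain ⟨w, hw⟩ := h c hc f σ i M
  apply hw
  have := Set.ext_iff.1 hE w
  simp only [Lang, Set.mem_ofPred_eq, LD_iff] at this
  rw [h1, this]

end Pool.Agent.Results.MP_067fd8_lc.NoEffectiveFamily
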